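import Pool.Agent.H70.AdmNorm

/-!
# The asymptotic norms of admissible functions

Every admissible function `K` is asymptotic to the norm of `ℓ^p`, for a unique `p = pinf` in `[1, ∞]`, at
infinity, and to the norm of `ℓ^p`, for a unique `p = p0 ≤ pinf`, at zero, and it lies between these two norms.
All pairs `1 ≤ p0 ≤ pinf ≤ ∞` occur.
-/

open scoped NNReal ENNReal
open Pool.Agent.H70.AdmNorm

namespace Pool.Agent.Results.MP_d71f90_an.AsymptoticNorms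

/-- **The asymptotic norms of admissible functions.**  The possible pairs of exponents are exactly the pairs
`1 ≤ p0 ≤ pinf ≤ ∞`. -/
theorem result :
    (∀ K : ℝ≥0 → ℝ≥0 → ℝ≥0, Admissible K →
      ∃! p : ℝ≥0∞ × ℝ≥0∞, 1 ≤ p.1 ∧ p.1 ≤ p.2 ∧ HasExponents K p.1 p.2) ∧
    (∀ p0 pinf : ℝ≥0∞, 1 ≤ p0 → p0 ≤ pinf → ∃ K : ℝ≥0 → ℝ≥0 → ℝ≥0, Admissible K ∧ HasExponents K p0 pinf) := by
  refine ⟨?_, fun p0 pinf h1 h2 => exists_with_exponents h1 h2⟩
  intro K hK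
  obtain ⟨p0, pinf, h1, h2, h3⟩ := exists_exponents hK
  refine ⟨(p0, pinf), ⟨h1, h2, h3⟩, ?_⟩
  rintro ⟨q0, qinf⟩ ⟨h1', h2', h3'⟩
  obtain ⟨e1, e2⟩ := exponents_unique hK.pre h1' h2' h3' h1 h2 h3
  exact Prod.ext e1 e2

end Pool.Agent.Results.MP_d71f90_an.AsymptoticNorms
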