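import Mathlib

/-!
# The sets of idempotents of admissible functions

We show that the sets `{a | K a a = a}`, for `K` admissible, are exactly the closed additive submonoids
of `[0, ∞)`.  For the existence part we use, for a closed additive submonoid `E`, the function
`K_E(x, y) = inf_{e ∈ E} (e + (x - e)⁺ + (y - e)⁺)`.
-/

open scoped NNReal
open Set

namespace Pool.Agent.Results.MP_d71f90_an.IdempotentSets

/-- The conditions 1-4 of the problem, together with continuity and associativity. -/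
structure Admissible (K : ℝ≥0 → ℝ≥0 → ℝ≥0) : Prop where
  zero_right : ∀ a, K a 0 = a
  symm : ∀ a b, K a b = K b a
  mono : ∀ a b c, a ≤ b → K a c ≤ K b c
  subadd : ∀ a b c d, K (a + c) (b + d) ≤ K a b + K c d
  cont : Continuous (fun x : ℝ≥0 × ℝ≥0 => K x.1 x.2)
  assoc : ∀ a b c, K (K a b) c = K a (K b c)

/-- the function `K_E` -/
noncomputable def KE (E : Set ℝ≥0) (x y : ℝ≥0) : ℝ≥0 := sInf ((fun e => e + (x - e) + (y - e)) '' E)

/-- the function of three variables -/
noncomputable def KE3 (E : Set ℝ≥0) (x y z : ℝ≥0) : ℝ≥0 :=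
  sInf ((fun e => e + (x - e) + (y - e) + (z - e)) '' E)

variable {E : Set ℝ≥0}

lemma KE_le {e : ℝ≥0} (he : e ∈ E) (x y : ℝ≥0) : KE E x y ≤ e + (x - e) + (y - e) :=
  csInf_le (OrderBot.bddBelow _) ⟨e, he, rfl⟩

lemma le_KE (h0 : (0 : ℝ≥0) ∈ E) {x y c : ℝ≥0} (h : ∀ e ∈ E, c ≤ e + (x - e) + (y - e)) : c ≤ KE E x y := by
  refine le_csInf (Set.Nonempty.image _ ⟨0, h0⟩) ?_
  rintro _ ⟨e, he, rfl⟩
  exact h e he

lemma KE3_le {e : ℝ≥0} (he : e ∈ E) (x y z : ℝ≥0) : KE3 E x y z ≤ e + (x - e) + (y - e) + (z - e) :=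
  csInf_le (OrderBot.bddBelow _) ⟨e, he, rfl⟩

lemma le_KE3 (h0 : (0 : ℝ≥0) ∈ E) {x y z c : ℝ≥0} (h : ∀ e ∈ E, c ≤ e + (x - e) + (y - e) + (z - e)) :
    c ≤ KE3 E x y z := by
  refine le_csInf (Set.Nonempty.image _ ⟨0, h0⟩) ?_
  rintro _ ⟨e, he, rfl⟩
  exact h e he

lemma KE_symm (x y : ℝ≥0) : KE E x y = KE E y x := by
  unfold KE
  congr 1
  apply image_congr
  intro e _
  ring

lemma KE_add_le (h0 : (0 : ℝ≥0) ∈ E) (x y d : ℝ≥0) : KE E (x + d) y ≤ KE E x y + d := by
  have h1 : KE E (x + d) y - d ≤ KE E x y := by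
    apply le_KE h0
    intro e he
    rw [tsub_le_iff_right]
    refine (KE_le he _ _).trans ?_
    have : x + d - e ≤ (x - e) + d := by
      rw [tsub_le_iff_right]
      calc x + d ≤ (x - e + e) + d := by gcongr; exact le_tsub_add
        _ = x - e + d + e := by ring
    calc e + (x + d - e) + (y - e) ≤ e + ((x - e) + d) + (y - e) := by gcongr
      _ = _ := by ring
  exact tsub_le_iff_right.mp h1

lemma KE_mono (h0 : (0 : ℝ≥0) ∈ E) {a b : ℝ≥0} (c : ℝ≥0) (h : a ≤ b) : KE E a c ≤ KE E b c := by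
  apply le_KE h0
  intro e he
  refine (KE_le he _ _).trans ?_
  gcongr

lemma le_KE_left (h0 : (0 : ℝ≥0) ∈ E) (x y : ℝ≥0) : x ≤ KE E x y := by
  apply le_KE h0
  intro e _
  calc x ≤ e + (x - e) := le_add_tsub
    _ ≤ _ := le_self_add

lemma le_KE_right (h0 : (0 : ℝ≥0) ∈ E) (x y : ℝ≥0) : y ≤ KE E x y := by
  rw [KE_symm]; exact le_KE_left h0 y x

lemma aux {a b e e' : ℝ≥0} (h : e' ≤ e) (h2 : e ≤ e' + (a - e') + (b - e')) :
    e + (a - e) + (b - e) ≤ e' + (a - e') + (b - e') := by
  rw [← NNReal.coe_le_coe] at h h2 ⊢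
  push_cast [NNReal.coe_sub_def] at h h2 ⊢
  rcases max_cases ((a : ℝ) - e) 0 with ⟨h3, h3'⟩ | ⟨h3, h3'⟩ <;>
  rcases max_cases ((b : ℝ) - e) 0 with ⟨h4, h4'⟩ | ⟨h4, h4'⟩ <;>
  rcases max_cases ((a : ℝ) - e') 0 with ⟨h5, h5'⟩ | ⟨h5, h5'⟩ <;>
  rcases max_cases ((b : ℝ) - e') 0 with ⟨h6, h6'⟩ | ⟨h6, h6'⟩ <;>
  rw [h3, h4] <;> rw [h5, h6] at h2 ⊢ <;> linarith

lemma dist_le_of {a b d : ℝ≥0} (h1 : a ≤ b + d) (h2 : b ≤ a + d) : dist a b ≤ d := by
  rw [NNReal.dist_eq, abs_sub_le_iff]
  constructor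
  · have : (a : ℝ) ≤ b + d := by exact_mod_cast h1
    linarith
  · have : (b : ℝ) ≤ a + d := by exact_mod_cast h2
    linarith

lemma KE_lip (h0 : (0 : ℝ≥0) ∈ E) (y : ℝ≥0) : LipschitzWith 1 (fun x => KE E x y) := by
  apply LipschitzWith.of_dist_le_mul
  intro a b
  rw [NNReal.coe_one, one_mul]
  have key : ∀ a b : ℝ≥0, a ≤ b → dist (KE E a y) (KE E b y) ≤ dist a b := by
    intro a b hab
    have h1 : dist a b = ((b - a : ℝ≥0) : ℝ) := by
      rw [NNReal.dist_eq, NNReal.coe_sub hab, abs_sub_comm, abs_of_nonneg]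
      have : (a : ℝ) ≤ b := by exact_mod_cast hab
      linarith
    rw [h1]
    apply dist_le_of
    · exact (KE_mono h0 y hab).trans (le_add_of_nonneg_right zero_le)
    · calc KE E b y = KE E (a + (b - a)) y := by rw [add_tsub_cancel_of_le hab]
        _ ≤ KE E a y + (b - a) := KE_add_le h0 _ _ _
  rcases le_total a b with h | h
  · exact key a b h
  · rw [dist_comm, dist_comm a b]; exact key b a h

lemma KE_cont (h0 : (0 : ℝ≥0) ∈ E) : Continuous (fun x : ℝ≥0 × ℝ≥0 => KE E x.1 x.2) := by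
  have h1 : LipschitzWith (1 + 1) (Function.uncurry (KE E)) := by
    apply LipschitzWith.uncurry
    · exact fun y => KE_lip h0 y
    · intro x
      have h := KE_lip (E := E) h0 x
      have e : KE E x = fun y => KE E y x := funext fun y => KE_symm _ _
      rw [e]
      exact h
  exact h1.continuous

lemma KE_assoc_aux (h0 : (0 : ℝ≥0) ∈ E) (a b c : ℝ≥0) : KE E (KE E a b) c = KE3 E a b c := by
  apply le_antisymm
  · apply le_KE3 h0
    intro e he
    refine (KE_le he _ _).trans ?_
    have h1 : KE E a b - e ≤ (a - e) + (b - e) := by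
      rw [tsub_le_iff_right]
      refine (KE_le he a b).trans (le_of_eq ?_)
      ring
    calc e + (KE E a b - e) + (c - e) ≤ e + ((a - e) + (b - e)) + (c - e) := by gcongr
      _ = _ := by ring
  · apply le_KE h0
    intro e he
    rcases le_or_gt (KE E a b) e with h | h
    · -- everything is below `e`
      have ha : a ≤ e := (le_KE_left h0 a b).trans h
      have hb : b ≤ e := (le_KE_right h0 a b).trans h
      refine (KE3_le he a b c).trans ?_
      rw [tsub_eq_zero_of_le ha, tsub_eq_zero_of_le hb, add_zero, add_zero]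
      gcongr
      exact le_self_add
    · have h2 : e + (KE E a b - e) + (c - e) = KE E a b + (c - e) := by
        rw [add_tsub_cancel_of_le h.le]
      rw [h2, ← tsub_le_iff_right]
      apply le_KE h0
      intro e' he'
      rw [tsub_le_iff_right]
      rcases le_or_gt e e' with h3 | h3
      · refine (KE3_le he' a b c).trans ?_
        gcongr
      · refine (KE3_le he a b c).trans ?_
        have h4 : e < e' + (a - e') + (b - e') := h.trans_le (KE_le he' a b)
        exact add_le_add_left (aux h3.le h4.le) _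

lemma KE_self_eq_iff (hcl : IsClosed E) (h0 : (0 : ℝ≥0) ∈ E) (x : ℝ≥0) : KE E x x = x ↔ x ∈ E := by
  constructor
  · intro h
    by_contra hx
    obtain ⟨ε, hε, hball⟩ := Metric.isOpen_iff.mp hcl.isOpen_compl x hx
    have h1 : x + Real.toNNReal ε ≤ KE E x x := by
      apply le_KE h0
      intro e he
      have he2 : e ∉ Metric.ball x ε := fun hc => hball hc he
      rw [Metric.mem_ball, not_lt, NNReal.dist_eq] at he2
      rw [← NNReal.coe_le_coe]
      push_cast [NNReal.coe_sub_def]
      rw [Real.coe_toNNReal _ hε.le]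
      rcases le_abs'.mp he2 with h2 | h2
      · have h3 : max ((x : ℝ) - e) 0 = x - e := max_eq_left (by linarith)
        rw [h3]
        linarith
      · have h3 : 0 ≤ max ((x : ℝ) - e) 0 := le_max_right _ _
        linarith
    rw [h] at h1
    rw [← NNReal.coe_le_coe, NNReal.coe_add, Real.coe_toNNReal _ hε.le] at h1
    linarith
  · intro hx
    apply le_antisymm
    · refine (KE_le hx x x).trans ?_
      simp
    · exact le_KE_left h0 x x

theorem admissible_KE (h0 : (0 : ℝ≥0) ∈ E) (hadd : ∀ x ∈ E, ∀ y ∈ E, x + y ∈ E) : Admissible (KE E) where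
  zero_right a := by
    apply le_antisymm
    · refine (KE_le h0 a 0).trans ?_
      simp
    · exact le_KE_left h0 a 0
  symm := KE_symm
  mono a b c h := KE_mono h0 c h
  subadd a b c d := by
    rw [← tsub_le_iff_right]
    apply le_KE h0
    intro e he
    rw [tsub_le_iff_left, ← tsub_le_iff_right]
    apply le_KE h0
    intro e' he'
    rw [tsub_le_iff_left]
    refine (KE_le (hadd e he e' he') _ _).trans ?_
    have h1 : a + c - (e + e') ≤ (a - e) + (c - e') := add_tsub_add_le_tsub_add_tsub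
    have h2 : b + d - (e + e') ≤ (b - e) + (d - e') := add_tsub_add_le_tsub_add_tsub
    calc e + e' + (a + c - (e + e')) + (b + d - (e + e'))
        ≤ e + e' + ((a - e) + (c - e')) + ((b - e) + (d - e')) := by gcongr
      _ = _ := by ring
  cont := KE_cont h0
  assoc a b c := by
    rw [KE_assoc_aux h0, KE_symm a, KE_assoc_aux h0]
    unfold KE3
    congr 1
    apply image_congr
    intro e _
    ring

/-- A set of nonnegative reals is the set of idempotents of an admissible function if and only if it is a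
closed additive submonoid. -/
theorem result (E : Set ℝ≥0) :
    (∃ K : ℝ≥0 → ℝ≥0 → ℝ≥0, Admissible K ∧ {a | K a a = a} = E) ↔
      (IsClosed E ∧ 0 ∈ E ∧ ∀ x ∈ E, ∀ y ∈ E, x + y ∈ E) := by
  constructor
  · rintro ⟨K, hK, rfl⟩
    refine ⟨?_, ?_, ?_⟩
    · apply isClosed_eq
      · exact hK.cont.comp (continuous_id.prodMk continuous_id)
      · exact continuous_id
    · exact hK.zero_right 0
    · intro x hx y hy
      have hx' : K x x = x := hx
      have hy' : K y y = y := hy
      show K (x + y) (x + y) = x + y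
      apply le_antisymm
      · calc K (x + y) (x + y) ≤ K x x + K y y := hK.subadd _ _ _ _
          _ = x + y := by rw [hx', hy']
      · calc x + y = K (x + y) 0 := (hK.zero_right _).symm
          _ = K 0 (x + y) := hK.symm _ _
          _ ≤ K (x + y) (x + y) := hK.mono _ _ _ zero_le
  · rintro ⟨hcl, h0, hadd⟩
    refine ⟨KE E, admissible_KE h0 hadd, ?_⟩
    ext x
    exact KE_self_eq_iff hcl h0 x

end Pool.Agent.Results.MP_d71f90_an.IdempotentSets
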