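import Pool.Agent.H3.Adm.Sup

/-!
# Admissible functions are suprema of subadditive functions of linear forms

For a continuous associative `K` with the properties 1-3 the inequality 4 holds if and only if `K` is
`1`-Lipschitz in the sense `K (a + u) b ≤ K a b + u` and the support functions of its sublevel sets,
`r ↦ max {a + θ b | K a b ≤ r}`, are superadditive for every `θ ≤ 1`; and also if and only if `K` is a pointwise
supremum of nondecreasing subadditive functions of nonnegative linear forms.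
-/

open scoped NNReal
open Pool.Agent.H3.Adm

namespace Pool.Agent.Results.MP_d71f90_an.LinearForms

/-- **Criterion for condition 4.** -/
theorem result (K : ℝ≥0 → ℝ≥0 → ℝ≥0) (hK : Base K) :
    [ ∀ a b c d : ℝ≥0, K (a + c) (b + d) ≤ K a b + K c d,
      (∀ a b u : ℝ≥0, K (a + u) b ≤ K a b + u) ∧
        ∀ θ : ℝ≥0, θ ≤ 1 → ∀ r s : ℝ≥0, supp K θ r + supp K θ s ≤ supp K θ (r + s),
      ∃ (ι : Type) (α β : ι → ℝ≥0) (σ : ι → ℝ≥0 → ℝ≥0), (∀ i, Monotone (σ i)) ∧
        (∀ i x y, σ i (x + y) ≤ σ i x + σ i y) ∧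
        ∀ a b : ℝ≥0, IsLUB (Set.range fun i => σ i (α i * a + β i * b)) (K a b) ].TFAE := by
  tfae_have 1 → 2 := fun h => ⟨hK.lip_of_sub h, fun θ _ r s => hK.supp_superadd h θ r s⟩
  tfae_have 2 → 3 := fun h => isSup_of hK h.1 h.2
  tfae_have 3 → 1 := fun h => sub_of_isSup h
  tfae_finish

end Pool.Agent.Results.MP_d71f90_an.LinearForms
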