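import Pool.Agent.H70.AdmNorm

/-!
# Regular variation of the solutions of Mulholland's inequality

Let `e` be an increasing bijection of `[0, ∞)` such that `K (a, b) = e⁻¹ (e a + e b)` satisfies condition 4
(Mulholland's inequality).  Then `e` varies regularly at zero, with index `p0` in `[1, ∞)`, and varies regularly
or rapidly at infinity, with index `pinf` in `[p0, ∞]`, and `K` lies between the norms of `ℓ^pinf` and `ℓ^p0`.
-/

open scoped NNReal ENNReal Topology
open Filter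
open Pool.Agent.H70.AdmNorm

namespace Pool.Agent.Results.MP_d71f90_an.RegularVariation

/-- **Regular variation of the solutions of Mulholland's inequality.** -/
theorem result (e : ℝ≥0 ≃o ℝ≥0)
    (hM : ∀ a b c d, e.symm (e (a + c) + e (b + d)) ≤ e.symm (e a + e b) + e.symm (e c + e d)) :
    ∃ p0 pinf : ℝ≥0∞, 1 ≤ p0 ∧ p0 ≤ pinf ∧ p0 ≠ ⊤ ∧
      (∀ a b, e (Nm pinf a b) ≤ e a + e b ∧ e a + e b ≤ e (Nm p0 a b)) ∧
      (∀ c : ℝ≥0, 0 < c → Tendsto (fun t => e (c * t) / e t) (𝓝[>] 0) (𝓝 (c ^ p0.toReal))) ∧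
      (pinf ≠ ⊤ → ∀ c : ℝ≥0, 0 < c → Tendsto (fun t => e (c * t) / e t) atTop (𝓝 (c ^ pinf.toReal))) ∧
      (pinf = ⊤ → ∀ c : ℝ≥0, 1 < c → Tendsto (fun t => e (c * t) / e t) atTop atTop) :=
  generator hM

end Pool.Agent.Results.MP_d71f90_an.RegularVariation
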